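import Pool.Agent.MP_27fe6f_al.Completion

/-!
# Proalgebraically rigid groups are profinitely rigid

Idea of the proof.  Let `Γ` and `Λ` be finitely generated with isomorphic profinite completions `P`.
Write `ℂ` as a quotient `π : ∏ₚ 𝔽ₚ^alg → ℂ` (an ultraproduct).  By Hilbert's basis theorem a complex
representation of the finitely generated group `Γ` lifts to a family of representations over the
fields `𝔽ₚ^alg`; each of them has finite image, hence extends to `P` and restricts to `Λ`.  On
matrix coefficients this gives an isomorphism of the Hopf algebras of representative functions of
`Γ` and `Λ`, i.e. of the proalgebraic completions.  So the profinite completion of a finitely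
generated group determines its proalgebraic completion over `ℂ`.
-/

namespace Pool.Agent.Results.MP_27fe6f_al.RigidityNotionsCoincide

open Pool.Agent.MP_27fe6f_al

universe u

/-- Every finitely generated residually finite group that is proalgebraically rigid is also
profinitely rigid. -/
theorem result : ∀ (Λ : Type u) [Group Λ] [Group.FG Λ] [Group.ResiduallyFinite Λ],
    ProalgebraicallyRigid Λ → ProfinitelyRigid Λ := by
  intro Λ _ _ _ hΛ Γ _ _ _ h
  exact hΛ Γ (proalgebraicallyIsomorphic_of_profinitelyIsomorphic Γ Λ h)

end Pool.Agent.Results.MP_27fe6f_al.RigidityNotionsCoincide
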